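import Pool.Agent.R292.BB.All

/-!
Block-beta random polytopes: the order of the expected face numbers, for all parameters
`β i > -1` and all face dimensions `j = 0, ..., d - 1`.
-/

set_option autoImplicit false

namespace Pool.Agent.Results.MP_7073fe_pr.BlockBetaFaces

open Pool.Agent.W712.RP Pool.Agent.R292.BB MeasureTheory Filter Topology

/-- Let `m ≥ 1`, `d i ≥ 1`, `β i > -1`. The beta distributions `betaM (d i) (β i)` (density
proportional to `(1 - ‖y‖ ^ 2) ^ β i` on the unit ball of `ℝ^(d i)`) are probability measures; for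
`n ≥ d + 1` the number of `j`-faces of the convex hull `P_n` of `n` independent points with the
block-beta distribution is integrable, and for every `j ≤ d - 1` its expectation has the order
`n ^ ((kmax - 1) / (kmax + 1)) * (log n) ^ (numMax - 1)`, where `kmax` is the largest of
`k i = (d i + β i) / (1 + β i)` and `numMax` is the number of `i` with `k i = kmax`. -/
theorem result (m : ℕ) (hm : 0 < m) (d : Fin m → ℕ) (hd : ∀ i, 0 < d i) (β : Fin m → ℝ)
    (hβ : ∀ i, -1 < β i) :
    (∀ i, IsProbabilityMeasure (betaM (d i) (β i))) ∧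
    (∀ j < ∑ i, d i, ∀ n, (∑ i, d i) + 1 ≤ n →
      Integrable (fun x : Fin n → ∀ i, EuclideanSpace ℝ (Fin (d i)) =>
        (faceNum (convexHull ℝ (Set.range x)) j : ℝ)) (bbLaw d β n)) ∧
    ∀ j < ∑ i, d i, Asymp (fun n => expF d β n j)
      (fun n => (n : ℝ) ^ ((kmax d β - 1) / (kmax d β + 1)) *
        (Real.log n) ^ (numMax d β - 1)) :=
  finalA m hm d hd β hβ

end Pool.Agent.Results.MP_7073fe_pr.BlockBetaFaces
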